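import Mathlib

set_option autoImplicit false

namespace Pool.Agent.Results.MP_b60c25_lc.Four

/-- The global map of the range-2 automaton with local rule `f`. -/
def G {S : Type} (f : S → S → S) (c : ℤ → S) : ℤ → S := fun p => f (c p) (c (p + 1))

/-- The action on finite words. -/
def GW {S : Type} (f : S → S → S) (w : List S) : List S := List.zipWith f w w.tail

/-- `f` has a diamond of length `l`. -/
def Diamond {S : Type} (f : S → S → S) (l : ℕ) : Prop :=
  1 ≤ l ∧ ∃ (p s : S) (c c' : List S), c.length = l ∧ c'.length = l ∧ c ≠ c' ∧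
    GW f (p :: c ++ [s]) = GW f (p :: c' ++ [s])

/-- The least length of a diamond. -/
noncomputable def delta {S : Type} (f : S → S → S) : ℕ := sInf {l | Diamond f l}

/-- The largest `delta` of a non-surjective automaton with `n` states. -/
noncomputable def D (n : ℕ) : ℕ :=
  sSup {d | ∃ f : Fin n → Fin n → Fin n, ¬ Function.Surjective (G f) ∧ delta f = d}

def f₀ : Fin 4 → Fin 4 → Fin 4 := ![![0, 0, 2, 1], ![3, 3, 1, 2], ![2, 3, 1, 0], ![1, 2, 0, 3]]

theorem not_surj : ¬ Function.Surjective (G f₀) := by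
  intro h
  obtain ⟨c, hc⟩ := h fun p => if p = 0 then 1 else if p = 2 then 0 else if p = 3 then 2 else 3
  have key : ∀ a b, f₀ a b = 1 → ∀ c, f₀ b c = 3 → ∀ d, f₀ c d = 0 → ∀ e, f₀ d e = 2 →
      ∀ g, f₀ e g ≠ 3 := by decide
  exact key (c 0) (c 1) (congrFun hc 0) (c 2) (congrFun hc 1) (c 3) (congrFun hc 2) (c 4)
    (congrFun hc 3) (c 5) (congrFun hc 4)

/-- pairs of states that can merge within `k` steps -/
def mer : ℕ → Fin 4 → Fin 4 → Bool
  | 0, a, b => a == b
  | k + 1, a, b => a == b || (List.finRange 4).any fun c => (List.finRange 4).any fun d =>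
      f₀ a c == f₀ b d && mer k c d

theorem mer_of (s : Fin 4) (c : List (Fin 4)) : ∀ c' a b, c.length = c'.length →
    GW f₀ (a :: c ++ [s]) = GW f₀ (b :: c' ++ [s]) → ∀ k, c.length < k → mer k a b = true := by
  induction c with
  | nil =>
    rintro (_ | _) a b h e (_ | k) hk <;> simp [GW] at h e hk
    have : mer k s s = true := by cases k <;> simp [mer]
    simp only [mer, Bool.or_eq_true, List.any_eq_true]
    exact Or.inr ⟨s, by simp, s, by simp, by simp [e, this]⟩
  | cons x c ih =>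
    rintro (_ | ⟨y, c'⟩) a b h e (_ | k) hk <;> simp [GW] at h e hk
    simp only [mer, Bool.or_eq_true, List.any_eq_true]
    exact Or.inr ⟨x, by simp, y, by simp, by simp [e.1, ih c' x y h (by simpa [GW] using e.2) k hk]⟩

theorem no_short (s : Fin 4) (c : List (Fin 4)) : ∀ c' p, c.length = c'.length → c.length ≤ 4 →
    GW f₀ (p :: c ++ [s]) = GW f₀ (p :: c' ++ [s]) → c = c' := by
  have key : ∀ p x y, f₀ p x = f₀ p y → mer 4 x y = true → x = y := by decide +kernel
  induction c with
  | nil => rintro (_ | _) p h - - <;> simp_all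
  | cons x c ih =>
    rintro (_ | ⟨y, c'⟩) p h h4 e <;> simp [GW] at h e h4
    have e' : GW f₀ (x :: c ++ [s]) = GW f₀ (y :: c' ++ [s]) := by simpa [GW] using e.2
    obtain rfl := key p x y e.1 (mer_of s c c' x y h e' 4 (by omega))
    rw [ih c' x h (by omega) e']

theorem delta_f₀ : delta f₀ = 5 := by
  have h5 : Diamond f₀ 5 := ⟨by omega, 0, 1, [1, 2, 1, 0, 1], [0, 3, 3, 3, 2], by decide⟩
  refine le_antisymm (Nat.sInf_le h5) (le_csInf ⟨5, h5⟩ ?_)
  rintro l ⟨-, p, s, c, c', rfl, h1, h2, h3⟩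
  by_contra h
  exact h2 (no_short s c c' p h1.symm (by omega) h3)

theorem result : 5 ≤ D 4 ∧ ¬ ∀ n, 2 ≤ n → D n = n - 1 := by
  have : 5 ≤ D 4 := le_csSup (((Set.finite_range (delta (S := Fin 4))).subset (by
    rintro _ ⟨f, -, rfl⟩; exact ⟨f, rfl⟩)).bddAbove) ⟨f₀, not_surj, delta_f₀⟩
  exact ⟨this, fun h => by have := h 4 (by omega); omega⟩

end Pool.Agent.Results.MP_b60c25_lc.Four
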